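import Pool.Agent.H507_P.Fin

set_option autoImplicit false

/-!
# Hyperbolic groups acting on their finite normal subgroups with bounded index
-/

namespace Pool.Agent.Results.MP_565fc2_lc.BoundedAction

open Pool.Agent.H507 Pool.Agent.H71R2.Hyp Pool.Agent.TH68

/-- marked groups whose group is hyperbolic, not virtually cyclic, and such that the centralizer of
every finite normal subgroup has index at most `n` -/
def calHn (n : ℕ) : Set MG := {N : MG | Hyperbolic N.grp ∧ ¬ Elem N.grp ∧
  ∀ E : Subgroup N.grp, E.Normal → Finite E →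
    (Subgroup.centralizer (E : Set N.grp)).index ≤ n}

theorem calHn_eq (n : ℕ) : calHn n = clsP (fun k => k ≤ n) := by
  ext N
  simp only [calHn, clsP, Set.mem_ofPred_eq, hyp_iff]
  constructor
  · rintro ⟨h1, h2, h3⟩
    exact ⟨h1, h2, h3 (rad N.grp) (rad_normal _) (rad_finite h1)⟩
  · rintro ⟨h1, h2, h3⟩
    refine ⟨h1, h2, fun E hE hf => ?_⟩
    refine le_trans ?_ h3
    have hle : Subgroup.centralizer (rad N.grp : Set N.grp) ≤
        Subgroup.centralizer (E : Set N.grp) :=
      Subgroup.centralizer_le (le_rad hE hf)
    exact Nat.le_of_dvd (Nat.pos_of_ne_zero (pidx_ne_zero h1)) (Subgroup.index_dvd_of_le hle)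

/-- the closure of `calHn n` has a comeager subset with countably many elementary classes -/
theorem result (n : ℕ) : ∃ S : Set (closure (calHn n)), S ∈ residual (closure (calHn n)) ∧
    ((fun N : closure (calHn n) => thy N.1) '' S).Countable := by
  rw [calHn_eq]
  exact machine (fun k => k ≤ n) (fun m k h1 h2 => h1.trans h2)
    (fun U hU hne => ⟨U, subset_rfl, hU, hne, n, fun N hN => hN.2.2.2⟩)

end Pool.Agent.Results.MP_565fc2_lc.BoundedAction
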