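import Pool.Agent.H507_P.Fin

set_option autoImplicit false

/-!
# Hyperbolic groups whose finite normal subgroups are central
-/

namespace Pool.Agent.Results.MP_565fc2_lc.CentralRadical

open Pool.Agent.H507 Pool.Agent.H71R2.Hyp Pool.Agent.TH68

/-- marked groups whose group is hyperbolic, not virtually cyclic, and such that every finite
normal subgroup is central -/
def calHc : Set MG := {N : MG | Hyperbolic N.grp ∧ ¬ Elem N.grp ∧
  ∀ E : Subgroup N.grp, E.Normal → Finite E → E ≤ Subgroup.center N.grp}

/-- the closure of `calHc` has a comeager subset inside one elementary class -/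
theorem result : ∃ S : Set (closure calHc), S ∈ residual (closure calHc) ∧
    ∀ x ∈ S, ∀ y ∈ S, thy x.1 = thy y.1 := by
  have h : calHc = {N : MG | HypGroup N.grp ∧ ¬ Elem N.grp ∧
      ∀ E : Subgroup N.grp, E.Normal → Finite E → E ≤ Subgroup.center N.grp} := by
    ext N
    simp only [calHc, Set.mem_ofPred_eq, hyp_iff]
  rw [h]
  exact central_class

end Pool.Agent.Results.MP_565fc2_lc.CentralRadical
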