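import Pool.Agent.H507_P.Fin

set_option autoImplicit false

/-!
# Countably many generic elementary classes and residual finiteness of hyperbolic groups

`closure calH` has a comeager subset with countably many elementary equivalence classes if and only
if there is a hyperbolic group which is not residually finite, and otherwise every nonempty open
subset is generically uncountable.
-/

namespace Pool.Agent.Results.MP_565fc2_lc.IffNonRF

open Pool.Agent.H507 Pool.Agent.H71R2.Hyp Pool.Agent.TH68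

/-- the set `ℋ` of marked groups whose group is hyperbolic and not virtually cyclic -/
def calH : Set MG := {N : MG | Hyperbolic N.grp ∧ ¬ Elem N.grp}

theorem calH_eq : calH = clsH := by
  ext N
  simp only [calH, clsH, Set.mem_ofPred_eq, hyp_iff]

/-- main equivalence -/
theorem result : List.TFAE [
    ∃ S : Set (closure calH), S ∈ residual (closure calH) ∧
      ((fun N : closure calH => thy N.1) '' S).Countable,
    ∃ U : Set (closure calH), IsOpen U ∧ U.Nonempty ∧
      ∃ S : Set (closure calH), S ∈ residual (closure calH) ∧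
        ((fun N : closure calH => thy N.1) '' (S ∩ U)).Countable,
    ∀ U : Set (closure calH), IsOpen U → U.Nonempty →
      ∃ V : Set (closure calH), V ⊆ U ∧ IsOpen V ∧ V.Nonempty ∧
        ∃ S : Set (closure calH), S ∈ residual (closure calH) ∧
          ∀ x ∈ S ∩ V, ∀ y ∈ S ∩ V, thy x.1 = thy y.1,
    ∃ (G : Type) (_ : Group G), Hyperbolic G ∧
      ¬ ∀ x : G, x ≠ 1 → ∃ L : Subgroup G, L.FiniteIndex ∧ x ∉ L] := by
  rw [calH_eq]
  obtain ⟨N₀, hN₀⟩ := clsH_nonempty
  have hne : Nonempty (closure clsH) := ⟨⟨N₀, subset_closure hN₀⟩⟩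
  have hbound : (∃ (G : Type) (_ : Group G), Hyperbolic G ∧
      ¬ ∀ x : G, x ≠ 1 → ∃ L : Subgroup G, L.FiniteIndex ∧ x ∉ L) →
      ∀ U : Set MG, IsOpen U → (U ∩ clsP (fun _ => True)).Nonempty →
      ∃ V : Set MG, V ⊆ U ∧ IsOpen V ∧ (V ∩ clsP (fun _ => True)).Nonempty ∧
        ∃ B : ℕ, ∀ N ∈ V ∩ clsP (fun _ => True), pidx N.grp ≤ B := by
    rintro ⟨G, _, hG, hrf⟩
    rw [clsP_true]
    intro U hU hUC
    exact bound_of_nonRF (hyp_iff.1 hG) (fun h => hrf ((fres_eq_bot_iff G).1 h)) U hU hUC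
  tfae_have 1 → 2 := by
    rintro ⟨S, hS, hc⟩
    exact ⟨Set.univ, isOpen_univ, Set.univ_nonempty, S, hS, by rw [Set.inter_univ]; exact hc⟩
  tfae_have 3 → 2 := by
    intro h
    obtain ⟨V, -, hV, hVn, S, hS, hc⟩ := h Set.univ isOpen_univ Set.univ_nonempty
    refine ⟨V, hV, hVn, S, hS, ?_⟩
    refine Set.Subsingleton.countable ?_
    rintro _ ⟨x, hx, rfl⟩ _ ⟨y, hy, rfl⟩
    exact hc x hx y hy
  tfae_have 4 → 1 := by
    intro h
    have h1 := machine (fun _ => True) (fun _ _ _ _ => trivial) (hbound h)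
    rw [clsP_true] at h1
    exact h1
  tfae_have 4 → 3 := by
    intro h U hU hUn
    obtain ⟨U', hU', rfl⟩ := isOpen_induced_iff.1 hU
    obtain ⟨x, hx⟩ := hUn
    have h0 : (U' ∩ clsP (fun _ => True)).Nonempty := by
      rw [clsP_true]
      exact mem_closure_iff.1 x.2 U' hU' hx
    have h1 := machine_local (fun _ => True) (fun _ _ _ _ => trivial) (hbound h) U' hU' h0
    rw [clsP_true] at h1
    obtain ⟨V, hVU, hV, ⟨y, hyV, hyC⟩, S, hS, hc⟩ := h1
    exact ⟨Subtype.val ⁻¹' V, fun z hz => hVU hz, hV.preimage continuous_subtype_val,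
      ⟨⟨y, subset_closure hyC⟩, hyV⟩, S, hS,
      fun z hz w hw => hc z hz.1 w hw.1 hz.2 hw.2⟩
  tfae_have 2 → 4 := by
    rintro ⟨U, hU, ⟨x, hx⟩, S, hS, hc⟩
    by_contra hcon
    obtain ⟨U', hU', rfl⟩ := isOpen_induced_iff.1 hU
    refine uncountable_of_RF ?_ U' hU' (mem_closure_iff.1 x.2 U' hU' hx) S hS hc
    intro G _ hG
    rw [fres_eq_bot_iff]
    by_contra hrf
    exact hcon ⟨G, inferInstance, hyp_iff.2 hG, hrf⟩
  tfae_finish

end Pool.Agent.Results.MP_565fc2_lc.IffNonRF
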